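import Pool.Agent.Lib.MP_898b37_mp.GS.Main2

/-!
Maximal hypersurfaces in closed universes with two commuting rotations.

Bartnik's question asks whether every maximally extended solution of the vacuum Einstein equations or
of the Einstein-Maxwell equations on `ℝ × S³` contains a maximal hypersurface, i.e. a smooth compact
spacelike Cauchy hypersurface of zero mean curvature. Here this is proved for the solutions with a
`U(1) × U(1)` symmetry, in the standard (Gowdy) form
`e^{2a}(-dt² + dθ²) + R (e^P (dx + Q dy)² + e^{-P} dy²)`, `R = c sin t sin θ`, on `(0, π) × S³`, for both
systems of equations and for every smooth invariant electromagnetic field. There is no condition of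
smallness, polarisation or genericity, and nothing is assumed on the behaviour at the singularities
`t = 0` and `t = π`.

The main idea. Let `u = t - θ`, `v = t + θ`, `F = e^a R`. An invariant hypersurface is a spacelike curve
in the `(t, θ)` strip; with `y = -dv/(2 du)` its mean curvature is positive if and only if
`dy/dv + y (F²)_v/F² > b`, `b = -(F²)_u/(2F²)`, along the curve. The slices `t = const` have positive mean
curvature for small `t` away from the two axes, but not near them, where `b` can be large. By the
constraint equations `b` is bounded by `A = R E_u`, where `E_u` is the energy density of the wave map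
`(P, Q)` in the direction of `u` (plus electromagnetic terms), and `A` changes along the null line
`u = const` only at the rate `|sin u| √(A B)/R`. The energy of the regularised fields grows at most as
`1/sin t` for `t → 0`, so its flux through the null lines is controlled, and it follows that
`b ≤ C (v⁻² + u v⁻⁴)` close to the axis. Steep curves `y = 100 C² t₀ v⁻³`, followed by
`y = κ v^(-5/4)` after the curve has crossed the light cone `u = 0` of the singular point of the axis,
and by a slice `t = t₁`, form a barrier of positive mean curvature which starts on one axis and ends on
the other one. The time reversed barrier near `t = π` has negative mean curvature. Between the two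
barriers a maximal hypersurface is found by shooting and the comparison principle, and a bootstrap
shows that it is smooth at the axes.
-/

set_option autoImplicit false

open Real Set
open scoped ContDiff

namespace Pool.Agent.Results.MP_898b37_mp.GowdyMaximal

open GS

/-- Let `S` be a `U(1) × U(1)`-symmetric electromagnetic spacetime on `(0, π) × S³`, smooth at both axes,
which solves the Einstein-Maxwell equations (the vacuum equations if the field is zero). Then there
is a function `T`, smooth on `[-1, 1]` with values in `(0, π)`, such that the hypersurface
`t = T(cos θ)` is spacelike, its mean curvature vanishes, and every causal curve, parametrised by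
`t ∈ (0, π)`, crosses it exactly once (along a causal curve `|dθ/dt| ≤ 1`). -/
theorem result (S : Space) (h : EinsteinMaxwell S.met S.field chartS) :
    ∃ T : ℝ → ℝ, ContDiffOn ℝ ∞ T (Icc (-1) 1) ∧ (∀ ζ ∈ Icc (-1 : ℝ) 1, T ζ ∈ Ioo 0 π) ∧
      (∀ p : Pt, p 1 ∈ Ioo 0 π → p 0 = T (cos (p 1)) →
        gradSq S.met (fun q => q 0 - T (cos (q 1))) p < 0 ∧
        meanCurv S.met (fun q => q 0 - T (cos (q 1))) p = 0) ∧
      ∀ ϑ : ℝ → ℝ, (∀ s ∈ Ioo 0 π, ϑ s ∈ Icc 0 π) →
        (∀ s ∈ Ioo 0 π, ∀ t ∈ Ioo 0 π, |ϑ s - ϑ t| ≤ |s - t|) →
        ∃! t, t ∈ Ioo 0 π ∧ t = T (cos (ϑ t)) :=
  main2 S h

end Pool.Agent.Results.MP_898b37_mp.GowdyMaximal
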